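import Mathlib
import Pool.Agent.H18.PiBase

open Set Filter Topology

namespace Pool.Agent.Results.MP_66f42e_an.Stop

/-- `X` with the vectors `e t` is the stopping time space: the `e t` span a dense subspace and the norm of
a finite combination is the supremum over antichains of the sums of the absolute values. -/
def IsStoppingTime {X : Type} [NormedAddCommGroup X] [NormedSpace ℝ X] (e : List Bool → X) : Prop :=
  Dense (Submodule.span ℝ (range e) : Set X) ∧ ∀ (s : Finset (List Bool)) (a : List Bool → ℝ),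
    IsLUB {r | ∃ A ⊆ s, IsAntichain (· <+: ·) (A : Set (List Bool)) ∧ r = ∑ t ∈ A, |a t|} ‖∑ t ∈ s, a t • e t‖

lemma basis {X : Type} [NormedAddCommGroup X] [NormedSpace ℝ X] (e : ℕ → X) (h1 : ∀ n, 1 ≤ ‖e n‖)
    (h : ∀ (s : Finset ℕ) (a ε : ℕ → ℝ), (∀ n, ε n = 1 ∨ ε n = -1) →
      ‖∑ n ∈ s, (ε n * a n) • e n‖ ≤ ‖∑ n ∈ s, a n • e n‖)
    (hd : Dense (Submodule.span ℝ (range e) : Set X)) (x : X) : ∃! a : ℕ → ℝ, HasSum (fun n => a n • e n) x := by
  have hco : ∀ (a : ℕ → ℝ) y, HasSum (fun n => a n • e n) y → ∀ n, |a n| ≤ ‖y‖ := fun a y hy n => by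
    have := H18.PiBase.part_le h hy {n}
    rw [Finset.sum_singleton, norm_smul] at this
    exact (le_mul_of_one_le_right (abs_nonneg _) (h1 n)).trans this
  refine existsUnique_of_exists_of_unique ?_ fun a b ha hb => funext fun n => ?_
  swap
  · have := hco (fun n => a n - b n) _ (by simpa only [sub_smul] using ha.sub hb) n
    rw [sub_self, norm_zero] at this
    exact sub_eq_zero.1 (abs_nonpos_iff.1 this)
  obtain ⟨y, hy, hx⟩ := mem_closure_iff_seq_limit.1 (hd x)
  choose b hb using fun k => Finsupp.mem_span_range_iff_exists_finsupp.1 (hy k)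
  have hs : ∀ k, HasSum (fun n => b k n • e n) (y k) := fun k => by
    rw [← hb k]
    exact hasSum_sum_of_ne_finset_zero fun n hn => by rw [Finsupp.notMem_support_iff.1 hn, zero_smul]
  have hs' : ∀ k j, HasSum (fun n => (b k n - b j n) • e n) (y k - y j) := fun k j => by
    simpa only [sub_smul] using (hs k).sub (hs j)
  have hc : ∀ n, ∃ a, Tendsto (fun k => b k n) atTop (𝓝 a) := fun n => cauchySeq_tendsto_of_complete (by
    refine Metric.cauchySeq_iff.2 fun ε hε => ?_
    obtain ⟨N, hN⟩ := Metric.cauchySeq_iff.1 hx.cauchySeq ε hε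
    exact ⟨N, fun k hk j hj => (hco _ _ (hs' k j) n).trans_lt (by rw [← dist_eq_norm]; exact hN k hk j hj)⟩)
  choose a ha using hc
  refine ⟨a, Metric.tendsto_atTop.2 fun ε hε => ?_⟩
  obtain ⟨k, hk⟩ := Metric.tendsto_atTop.1 hx (ε / 2) (by positivity)
  have h2 : ‖x - y k‖ < ε / 2 := by rw [← dist_eq_norm, dist_comm]; exact hk k le_rfl
  refine ⟨(b k).support, fun s hs => ?_⟩
  have h3 : ‖∑ n ∈ s, (a n - b k n) • e n‖ ≤ ‖x - y k‖ := le_of_tendsto_of_tendsto'
    (tendsto_finset_sum s fun n _ => ((ha n).sub_const _).smul_const _).norm (hx.sub_const _).norm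
    fun j => H18.PiBase.part_le h (hs' j k) s
  have h4 : ∑ n ∈ s, b k n • e n = y k := by
    rw [← hb k]
    exact (Finset.sum_subset hs fun n _ hn => by rw [Finsupp.notMem_support_iff.1 hn, zero_smul]).symm
  simp only [sub_smul, Finset.sum_sub_distrib, h4] at h3
  rw [dist_eq_norm, show ∑ n ∈ s, a n • e n - x = (∑ n ∈ s, a n • e n - y k) - (x - y k) by abel]
  linarith [norm_sub_le (∑ n ∈ s, a n • e n - y k) (x - y k)]

/-- The unit ball of the stopping time space has a countable `π`-base for its relative weak topology. -/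
theorem result (X : Type) [NormedAddCommGroup X] [NormedSpace ℝ X] [CompleteSpace X] (e : List Bool → X)
    (he : IsStoppingTime e) : ∃ U : ℕ → Set (WeakSpace ℝ X),
      (∀ n, IsOpen (U n) ∧ (U n ∩ toWeakSpace ℝ X '' Metric.closedBall (0 : X) 1).Nonempty) ∧
      ∀ V : Set (WeakSpace ℝ X), IsOpen V → (V ∩ toWeakSpace ℝ X '' Metric.closedBall (0 : X) 1).Nonempty →
        ∃ n, U n ∩ toWeakSpace ℝ X '' Metric.closedBall (0 : X) 1 ⊆ V := by
  obtain ⟨φ⟩ : Nonempty (ℕ ≃ List Bool) := nonempty_equiv_of_countable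
  have h2 : ∀ (s : Finset ℕ) (a ε : ℕ → ℝ), (∀ n, ε n = 1 ∨ ε n = -1) →
      ‖∑ n ∈ s, (ε n * a n) • e (φ n)‖ ≤ ‖∑ n ∈ s, a n • e (φ n)‖ := fun s a ε hε => by
    have h3 := he.2 (s.map φ.toEmbedding) fun t => ε (φ.symm t) * a (φ.symm t)
    have h4 := he.2 (s.map φ.toEmbedding) fun t => a (φ.symm t)
    have h5 : ∀ n, |ε n * a n| = |a n| := fun n => by rcases hε n with h | h <;> simp [h]
    simp only [h5] at h3
    simpa using (h3.unique h4).le
  obtain ⟨c, hc⟩ := H18.PiBase.exists_UB (fun n => e (φ n)) (basis _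
    (fun n => by simpa using (he.2 {φ n} 1).1 ⟨{φ n}, Finset.Subset.rfl, by simp, rfl⟩) h2
    (by rw [show (range fun n => e (φ n)) = range e from φ.surjective.range_comp e]; exact he.1)) h2
  exact H18.PiBase.main hc

end Pool.Agent.Results.MP_66f42e_an.Stop
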